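import Pool.Agent.Helper56_MG.Stmts2
import Pool.Agent.Helper56_MG.Base1

/-!
# MG, module ER (helper69): the embedding of the Cantor space in the real line
-/

open Set Filter Topology

namespace Pool.Agent.MG.H69

open Pool.Agent.MG
open Pool.Agent.Men (iv iv2)

/-- digits -/
noncomputable def dg (x : R) (i : ℕ) : ℝ := (if x i then (2 : ℝ) else 0) / 3 ^ (i + 1)

/-- partial sums -/
noncomputable def ps (x : R) (n : ℕ) : ℝ := ∑ i ∈ Finset.range n, dg x i

theorem dg_nonneg (x : R) (i : ℕ) : 0 ≤ dg x i := by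
  unfold dg; positivity

theorem dg_le (x : R) (i : ℕ) : dg x i ≤ 2 / 3 ^ (i + 1) := by
  unfold dg
  split_ifs
  · exact le_rfl
  · rw [zero_div]; positivity

theorem hasSum_tail (n : ℕ) : HasSum (fun i : ℕ => (2 : ℝ) / 3 ^ (i + n + 1)) (1 / 3 ^ n) := by
  have h := (hasSum_geometric_of_lt_one (r := (1 / 3 : ℝ)) (by norm_num) (by norm_num)).mul_left
    (2 / 3 ^ (n + 1))
  have e1 : (fun i : ℕ => (2 : ℝ) / 3 ^ (i + n + 1)) = fun i => 2 / 3 ^ (n + 1) * (1 / 3) ^ i := by
    funext i
    rw [one_div, inv_pow, show i + n + 1 = (n + 1) + i by ring, pow_add 3 (n + 1) i]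
    field_simp
  have e2 : (1 : ℝ) / 3 ^ n = 2 / 3 ^ (n + 1) * (1 - 1 / 3)⁻¹ := by
    rw [pow_succ]
    norm_num
    field_simp
  rw [e1, e2]
  exact h

theorem summable_dg (x : R) : Summable (dg x) := by
  refine Summable.of_nonneg_of_le (dg_nonneg x) (dg_le x) ?_
  have := (hasSum_tail 0).summable
  simpa using this

theorem eR_eq (x : R) : eR x = ∑' i, dg x i := rfl

theorem ps_le_eR (x : R) (n : ℕ) : ps x n ≤ eR x := by
  rw [eR_eq]
  exact (summable_dg x).sum_le_tsum _ (fun i _ => dg_nonneg x i)

theorem eR_le_ps (x : R) (n : ℕ) : eR x ≤ ps x n + 1 / 3 ^ n := by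
  rw [eR_eq, ← (summable_dg x).sum_add_tsum_nat_add n]
  have h : ∑' i, dg x (i + n) ≤ 1 / 3 ^ n := by
    rw [← (hasSum_tail n).tsum_eq]
    refine Summable.tsum_le_tsum (fun i => dg_le x (i + n)) ?_ (hasSum_tail n).summable
    exact (summable_nat_add_iff n).2 (summable_dg x)
  unfold ps
  linarith

theorem ps_congr {x x' : R} {n : ℕ} (h : ∀ i < n, x i = x' i) : ps x n = ps x' n := by
  unfold ps
  refine Finset.sum_congr rfl fun i hi => ?_
  unfold dg
  rw [h i (Finset.mem_range.1 hi)]

theorem ps_succ (x : R) (n : ℕ) : ps x (n + 1) = ps x n + dg x n := Finset.sum_range_succ _ _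

/-- comparison at the first difference -/
theorem sep {x x' : R} {n : ℕ} (h : ∀ i < n, x i = x' i) (h1 : x n = true) (h2 : x' n = false) :
    eR x' + 1 / 3 ^ (n + 1) ≤ eR x := by
  have e1 := ps_le_eR x (n + 1)
  have e2 := eR_le_ps x' (n + 1)
  have e3 : ps x (n + 1) = ps x n + 2 / 3 ^ (n + 1) := by
    rw [ps_succ, dg, h1]; simp
  have e4 : ps x' (n + 1) = ps x' n := by
    rw [ps_succ, dg, h2]; simp
  rw [ps_congr h] at e3
  have e5 : (2 : ℝ) / 3 ^ (n + 1) = 1 / 3 ^ (n + 1) + 1 / 3 ^ (n + 1) := by ring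
  linarith

theorem close {x x' : R} {n : ℕ} (h : ∀ i < n, x i = x' i) : |eR x' - eR x| ≤ 1 / 3 ^ n := by
  have e1 := ps_le_eR x n
  have e2 := eR_le_ps x n
  have e3 := ps_le_eR x' n
  have e4 := eR_le_ps x' n
  rw [ps_congr h] at e1 e2
  rw [abs_le]
  constructor <;> linarith

theorem exists_first {x x' : R} (h : x ≠ x') : ∃ n, (∀ i < n, x i = x' i) ∧ x n ≠ x' n := by
  classical
  have h1 : ∃ n, x n ≠ x' n := by
    by_contra hc
    push Not at hc
    exact h (funext hc)
  exact ⟨Nat.find h1, fun i hi => not_not.1 (Nat.find_min h1 hi), Nat.find_spec h1⟩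

theorem eR_injective : Function.Injective eR := by
  intro x x' h
  by_contra hne
  obtain ⟨n, h1, h2⟩ := exists_first hne
  have h3 : (0 : ℝ) < 1 / 3 ^ (n + 1) := by positivity
  cases hx : x n <;> cases hx' : x' n
  · exact h2 (hx.trans hx'.symm)
  · have := sep (fun i hi => (h1 i hi).symm) hx' hx
    linarith
  · have := sep h1 hx hx'
    linarith
  · exact h2 (hx.trans hx'.symm)

theorem measurable_dg (i : ℕ) : Measurable (fun x : R => dg x i) := by
  have : (fun x : R => dg x i) = (fun b : Bool => (if b then (2 : ℝ) else 0) / 3 ^ (i + 1)) ∘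
      (fun x : R => x i) := rfl
  rw [this]
  exact (measurable_of_countable _).comp (measurable_pi_apply i)

theorem measurable_eR : Measurable eR := by
  refine measurable_of_tendsto_metrizable (f := fun n x => ps x n)
    (fun n => Finset.measurable_sum _ (fun i _ => measurable_dg i)) ?_
  rw [tendsto_pi_nhds]
  intro x
  exact (summable_dg x).hasSum.tendsto_sum_nat

theorem exists_iv (p q : ℚ) : ∃ a, iv a = Ioo (p : ℝ) (q : ℝ) := by
  obtain ⟨a, ha⟩ := (Denumerable.eqv (ℚ × ℚ)).symm.surjective (p, q)
  refine ⟨a, ?_⟩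
  have h : Denumerable.ofNat (ℚ × ℚ) a = (p, q) := ha
  unfold iv
  rw [h]

/-- the rational number of a node -/
def qn (s : Node) : ℚ := ∑ i ∈ Finset.range s.length, (if s.getD i false then (2 : ℚ) else 0) / 3 ^ (i + 1)

theorem qn_eq {s : Node} {x : R} (h : On s x) : (qn s : ℝ) = ps x s.length := by
  unfold qn ps
  push_cast
  refine Finset.sum_congr rfl fun i hi => ?_
  have hi' := Finset.mem_range.1 hi
  have h1 : s.getD i false = x i := by
    have h2 : s = pre x s.length := h.symm
    rw [List.getD_eq_getElem _ _ hi']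
    have h3 := getElem_pre x s.length i (by simpa using hi')
    rw [← h3]
    congr 1
  unfold dg
  rw [h1]
  cases x i <;> simp

/-- a point through the node -/
def pt (s : Node) : R := fun i => s.getD i false

theorem on_pt (s : Node) : On s (pt s) := by
  unfold On
  apply List.ext_getElem
  · simp
  · intro i h1 h2
    rw [getElem_pre]
    unfold pt
    rw [List.getD_eq_getElem]

theorem er : ErStmt := by
  refine ⟨measurable_eR, eR_injective, ?_, ?_, ?_, ?_⟩
  · intro x a hx
    unfold iv at hx ⊢
    set p := (Denumerable.ofNat (ℚ × ℚ) a).1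
    set q := (Denumerable.ofNat (ℚ × ℚ) a).2
    have h1 : 0 < min (eR x - p) (q - eR x) := lt_min (by linarith [hx.1]) (by linarith [hx.2])
    obtain ⟨n, hn⟩ := exists_pow_lt_of_lt_one h1 (show (1 / 3 : ℝ) < 1 by norm_num)
    refine ⟨n, fun x' hx' => ?_⟩
    have h2 := close (fun i hi => (pre_eq_pre_iff.1 hx' i hi).symm)
    rw [abs_le] at h2
    have h3 : (1 : ℝ) / 3 ^ n = (1 / 3) ^ n := by rw [one_div, one_div, inv_pow]
    rw [h3] at h2
    have h4 := lt_of_lt_of_le hn (min_le_left _ _)
    have h5 := lt_of_lt_of_le hn (min_le_right _ _)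
    constructor
    · have := h2.1
      linarith
    · have := h2.2
      linarith
  · choose w hw using fun s : Node => exists_iv (qn s - 1 / (2 * 3 ^ s.length))
      (qn s + 1 / 3 ^ s.length + 1 / (2 * 3 ^ s.length))
    refine ⟨w, fun s x => ?_⟩
    rw [hw s]
    have hpos : (0 : ℝ) < 1 / (2 * 3 ^ s.length) := by positivity
    have e2 : (1 : ℝ) / 3 ^ s.length = 2 * (1 / (2 * 3 ^ s.length)) := by field_simp
    constructor
    · rintro ⟨h1, h2⟩
      push_cast at h1 h2
      by_contra hc
      have hq := qn_eq (on_pt s)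
      -- first difference with the point `pt s`
      have hne : ∃ n, n < s.length ∧ (∀ i < n, x i = pt s i) ∧ x n ≠ pt s n := by
        by_contra hcon
        apply hc
        have h3 : pre x s.length = pre (pt s) s.length := by
          rw [pre_eq_pre_iff]
          intro i hi
          induction i using Nat.strong_induction_on with
          | _ i ih =>
            by_contra h4
            exact hcon ⟨i, hi, fun j hj => ih j hj (by omega), h4⟩
        rw [On, h3]
        exact on_pt s
      obtain ⟨n, hn, h3, h4⟩ := hne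
      have h5 : (1 : ℝ) / 3 ^ s.length ≤ 1 / 3 ^ (n + 1) := by
        apply one_div_le_one_div_of_le (by positivity)
        exact pow_le_pow_right₀ (by norm_num) hn
      have h6 := ps_le_eR (pt s) s.length
      have h7 := eR_le_ps (pt s) s.length
      cases hx : x n <;> cases hx' : pt s n
      · exact h4 (hx.trans hx'.symm)
      · -- `x` is on the left
        -- compare with the leftmost point, which has partial sum `qn s`
        have h8 : ps x (n + 1) + 2 / 3 ^ (n + 1) = ps (pt s) (n + 1) := by
          rw [ps_succ, ps_succ, ps_congr h3, dg, dg, hx, hx']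
          simp
        have h9 : ps (pt s) (n + 1) ≤ ps (pt s) s.length := by
          unfold ps
          exact Finset.sum_le_sum_of_subset_of_nonneg
            (Finset.range_subset_range.2 hn) (fun i _ _ => dg_nonneg _ _)
        have h10 := eR_le_ps x (n + 1)
        have h11 : (2 : ℝ) / 3 ^ (n + 1) = 1 / 3 ^ (n + 1) + 1 / 3 ^ (n + 1) := by ring
        linarith
      · -- `x` is on the right
        have h8 : ps x (n + 1) = ps (pt s) (n + 1) + 2 / 3 ^ (n + 1) := by
          rw [ps_succ, ps_succ, ps_congr h3, dg, dg, hx, hx']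
          simp
        have h9 : ps (pt s) s.length + 1 / 3 ^ s.length ≤ ps (pt s) (n + 1) + 1 / 3 ^ (n + 1) := by
          have key : ∀ k, n + 1 ≤ k → ps (pt s) k + 1 / 3 ^ k ≤ ps (pt s) (n + 1) + 1 / 3 ^ (n + 1) := by
            intro k hk
            induction k, hk using Nat.le_induction with
            | base => exact le_rfl
            | succ k hk ih =>
              rw [ps_succ]
              have h12 := dg_le (pt s) k
              have h13 : (1 : ℝ) / 3 ^ k = 2 / 3 ^ (k + 1) + 1 / 3 ^ (k + 1) := by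
                rw [pow_succ]; field_simp; norm_num
              linarith
          exact key _ hn
        have h10 := ps_le_eR x (n + 1)
        have h11 : (2 : ℝ) / 3 ^ (n + 1) = 1 / 3 ^ (n + 1) + 1 / 3 ^ (n + 1) := by ring
        linarith
      · exact h4 (hx.trans hx'.symm)
    · intro h
      have h1 := qn_eq h
      have h2 := ps_le_eR x s.length
      have h3 := eR_le_ps x s.length
      push_cast
      constructor <;> linarith
  · obtain ⟨a, ha⟩ := exists_iv 0 0
    exact ⟨a, by rw [ha]; simp⟩
  · intro O hO x hx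
    obtain ⟨l, u, hlu, hsub⟩ := mem_nhds_iff_exists_Ioo_subset.1 (hO.mem_nhds hx)
    obtain ⟨p, hp1, hp2⟩ := exists_rat_btwn hlu.1
    obtain ⟨q, hq1, hq2⟩ := exists_rat_btwn hlu.2
    obtain ⟨a, ha⟩ := exists_iv p q
    refine ⟨a, ?_, ?_⟩
    · rw [ha]; exact ⟨hp2, hq1⟩
    · rw [ha]
      exact fun y hy => hsub ⟨hp1.trans hy.1, hy.2.trans hq2⟩

end Pool.Agent.MG.H69
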