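import Pool.Agent.Helper56_MG.Stmts2
import Pool.Agent.Helper56_MG.Base3

/-!
# MG, module JADD (helper69): unions of continuum many Menger names
-/

open Set Filter Topology

namespace Pool.Agent.MG.H69

open Pool.Agent.MG
open Pool.Agent.FL (Ix)
open Pool.Agent.Men (iv iv2)

/-! ## the function `nxt` -/

theorem nxt_spec {x : R} (hx : Inf1 x) (n : ℕ) : n ≤ nxt x n ∧ x (nxt x n) = true := by
  have h : ({k | n ≤ k ∧ x k = true} : Set ℕ).Nonempty := hx n
  exact Nat.sInf_mem h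

theorem nxt_mono {x : R} (hx : Inf1 x) {n n' : ℕ} (h : n ≤ n') : nxt x n ≤ nxt x n' := by
  have h1 := nxt_spec hx n'
  exact Nat.sInf_le ⟨h.trans h1.1, h1.2⟩

theorem measurable_nxt (n : ℕ) : Measurable (fun x : R => nxt x n) := by
  classical
  set p : R → ℕ → Prop := fun x k => (n ≤ k ∧ x k = true) ∨ (k = 0 ∧ ∀ j, n ≤ j → x j = false)
    with hp
  have hex : ∀ x, ∃ k, p x k := by
    intro x
    by_cases h : ∃ k, n ≤ k ∧ x k = true
    · obtain ⟨k, hk⟩ := h
      exact ⟨k, Or.inl hk⟩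
    · refine ⟨0, Or.inr ⟨rfl, fun j hj => ?_⟩⟩
      by_contra hc
      exact h ⟨j, hj, by simpa using hc⟩
  have hm : ∀ k, MeasurableSet {x | p x k} := by
    intro k
    have e : {x : R | p x k} = ({x | n ≤ k} ∩ {x | x k = true}) ∪
        ({x | k = 0} ∩ ⋂ j, {x | n ≤ j → x j = false}) := by
      ext x
      simp [hp]
    rw [e]
    refine ((MeasurableSet.const _).inter (measurableSet_coord_eq k true)).union
      ((MeasurableSet.const _).inter (MeasurableSet.iInter fun j => ?_))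
    by_cases hj : n ≤ j
    · simpa [hj] using measurableSet_coord_eq j false
    · simp [hj]
  have key : (fun x : R => nxt x n) = fun x => Nat.find (hex x) := by
    funext x
    by_cases h : ∃ k, n ≤ k ∧ x k = true
    · have h1 : nxt x n ∈ {k | n ≤ k ∧ x k = true} := Nat.sInf_mem h
      symm
      rw [Nat.find_eq_iff]
      refine ⟨Or.inl h1, fun k hk hpk => ?_⟩
      rcases hpk with h2 | ⟨-, h2⟩
      · exact absurd (Nat.sInf_le h2) (not_le.2 hk)
      · have h3 := h2 _ h1.1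
        have h4 := h1.2
        rw [h3] at h4
        exact absurd h4 (by simp)
    · have h1 : nxt x n = 0 := by
        have : ({k | n ≤ k ∧ x k = true} : Set ℕ) = ∅ := by
          ext k
          simp only [Set.mem_ofPred_eq, Set.mem_empty_iff_false, iff_false]
          exact fun hk => h ⟨k, hk⟩
        show sInf {k | n ≤ k ∧ x k = true} = 0
        rw [this, Nat.sInf_empty]
      rw [h1]
      symm
      rw [Nat.find_eq_zero]
      refine Or.inr ⟨rfl, fun j hj => ?_⟩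
      by_contra hc
      exact h ⟨j, hj, by simpa using hc⟩
  rw [key]
  exact measurable_find hex hm

/-! ## measurability -/

theorem measurableSet_fin {Ω : Type*} [MeasurableSpace Ω] {N : ℕ} {c : Ω → ℕ → ℕ}
    (hc : Measurable c) (e : ℕ → ℕ) (P : (Fin N → ℕ) → Prop) :
    MeasurableSet {w | P (fun k => c w (e k))} := by
  have h1 : Measurable (fun w => fun k : Fin N => c w (e k)) :=
    measurable_pi_lambda _ fun k => (measurable_pi_apply (e k)).comp hc
  exact (Set.to_countable {g : Fin N → ℕ | P g}).measurableSet.preimage h1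

theorem measurableSet_cov {Ω : Type*} [MeasurableSpace Ω] {c : Ω → ℕ → ℕ}
    (hc : Measurable c) (a b m : ℕ) :
    MeasurableSet {w | iv a ⊆ ⋃ k ∈ Set.Iic b, iv (c w (Nat.pair m k))} := by
  have h := measurableSet_fin hc (N := b + 1) (fun k => Nat.pair m k)
    (fun g => iv a ⊆ ⋃ k : Fin (b + 1), iv (g k))
  convert h using 1
  ext w
  simp only [Set.mem_ofPred_eq]
  have : (⋃ k ∈ Set.Iic b, iv (c w (Nat.pair m k)))
      = ⋃ k : Fin (b + 1), iv (c w (Nat.pair m k)) := by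
    ext t
    simp only [Set.mem_iUnion, Set.mem_Iic, exists_prop]
    constructor
    · rintro ⟨k, hk, ht⟩
      exact ⟨⟨k, Nat.lt_succ_of_le hk⟩, ht⟩
    · rintro ⟨k, ht⟩
      exact ⟨k, Nat.le_of_lt_succ k.isLt, ht⟩
  rw [this]

theorem measurable_nat_family {Ω : Type*} [MeasurableSpace Ω] {f : Ω → ℕ → ℕ}
    (h : ∀ n, Measurable (fun w => f w n)) : Measurable f := measurable_pi_lambda _ h

/-- The names `f z` which avoid the cover number `m`. -/
theorem ms_avoid {f : PJ → ℝ} (hf : Nm f) {c : PJ → ℕ → ℕ} (hc : Nm c) (m : ℕ) :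
    Ms {z | ∀ k, f z ∉ iv (c z (Nat.pair m k))} := by
  constructor
  · have e : {z : PJ | ∀ k, f z ∉ iv (c z (Nat.pair m k))}
        = ⋂ k, ⋂ v, ({z | c z (Nat.pair m k) = v}ᶜ ∪ {z | f z ∈ iv v}ᶜ) := by
      ext z
      simp only [Set.mem_ofPred_eq, Set.mem_iInter, Set.mem_union, Set.mem_compl_iff]
      constructor
      · intro h k v
        by_cases hv : c z (Nat.pair m k) = v
        · right
          rw [← hv]
          exact h k
        · exact Or.inl hv
      · intro h k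
        rcases h k (c z (Nat.pair m k)) with h1 | h1
        · exact absurd rfl h1
        · exact h1
    rw [e]
    refine MeasurableSet.iInter fun k => MeasurableSet.iInter fun v => ?_
    refine MeasurableSet.union ?_ ?_
    · exact (measurableSet_eq_fun ((measurable_pi_apply (Nat.pair m k)).comp hc.1)
        measurable_const).compl
    · exact (measurableSet_Ioo.preimage hf.1).compl
  · intro y y' h
    simp only [Set.mem_ofPred_eq]
    rw [hf.2 y y' h, hc.2 y y' h]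

/-- the requirement on the index `(a, b, b')` -/
def Qc (c : ℕ → ℕ) (φm : ℕ → ℕ) (M a b b' : ℕ) : Prop :=
  (∀ m ≤ M, iv a ⊆ ⋃ k ∈ Set.Iic b, iv (c (Nat.pair m k))) ∧
  (∀ m ≤ φm b, iv a ⊆ ⋃ k ∈ Set.Iic b', iv (c (Nat.pair m k)))

open Classical in
/-- the cover of the second step -/
noncomputable def cc (c : PJ → ℕ → ℕ) (φm : PJ → ℕ → ℕ) (N0 a0 : ℕ) (y : PJ) (p : ℕ) : ℕ :=
  if Qc (c y) (φm y) (p.unpair.1 + N0) p.unpair.2.unpair.1 p.unpair.2.unpair.2.unpair.1
    p.unpair.2.unpair.2.unpair.2 then p.unpair.2.unpair.1 else a0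

theorem measurableSet_Qc {c φm : PJ → ℕ → ℕ} (hc : Measurable c) (hφ : Measurable φm)
    (M a b b' : ℕ) : MeasurableSet {y | Qc (c y) (φm y) M a b b'} := by
  have e : {y | Qc (c y) (φm y) M a b b'}
      = (⋂ m, {y | m ≤ M → iv a ⊆ ⋃ k ∈ Set.Iic b, iv (c y (Nat.pair m k))}) ∩
        ⋂ m, ({y | m ≤ φm y b}ᶜ ∪ {y | iv a ⊆ ⋃ k ∈ Set.Iic b', iv (c y (Nat.pair m k))}) := by
    ext y
    simp only [Qc, Set.mem_ofPred_eq, Set.mem_inter_iff, Set.mem_iInter, Set.mem_union,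
      Set.mem_compl_iff]
    constructor
    · rintro ⟨h1, h2⟩
      exact ⟨h1, fun m => by
        by_cases hm : m ≤ φm y b
        · exact Or.inr (h2 m hm)
        · exact Or.inl hm⟩
    · rintro ⟨h1, h2⟩
      exact ⟨h1, fun m hm => (h2 m).resolve_left (fun h => h hm)⟩
  rw [e]
  refine (MeasurableSet.iInter fun m => ?_).inter (MeasurableSet.iInter fun m => ?_)
  · by_cases hm : m ≤ M
    · simpa [hm] using measurableSet_cov hc a b m
    · simp [hm]
  · refine MeasurableSet.union ?_ (measurableSet_cov hc a b' m)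
    exact (measurableSet_le measurable_const ((measurable_pi_apply b).comp hφ)).compl

theorem measurable_cc {c φm : PJ → ℕ → ℕ} (hc : Measurable c) (hφ : Measurable φm)
    (N0 a0 : ℕ) : Measurable (cc c φm N0 a0) := by
  refine measurable_pi_lambda _ fun p => ?_
  unfold cc
  exact Measurable.ite (measurableSet_Qc hc hφ _ _ _ _) measurable_const measurable_const

theorem cc_pair (c : PJ → ℕ → ℕ) (φm : PJ → ℕ → ℕ) (N0 a0 : ℕ) (y : PJ) (n a b b' : ℕ)
    (h : Qc (c y) (φm y) (n + N0) a b b') :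
    cc c φm N0 a0 y (Nat.pair n (Nat.pair a (Nat.pair b b'))) = a := by
  unfold cc
  rw [if_pos (by simpa only [Nat.unpair_pair] using h)]
  simp only [Nat.unpair_pair]

/-- partial sums of a sequence -/
def cum (g : ℕ → ℕ) (n : ℕ) : ℕ := ∑ i ∈ Finset.range (n + 1), g i

theorem cum_mono (g : ℕ → ℕ) : Monotone (cum g) := by
  intro m n h
  unfold cum
  exact Finset.sum_le_sum_of_subset (Finset.range_subset_range.2 (by omega))

theorem le_cum (g : ℕ → ℕ) (n : ℕ) : g n ≤ cum g n := by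
  unfold cum
  exact Finset.single_le_sum (f := g) (fun _ _ => Nat.zero_le _) (Finset.self_mem_range_succ n)

theorem measurable_cum {Ω : Type*} [MeasurableSpace Ω] {g : Ω → ℕ → ℕ} (hg : Measurable g) :
    Measurable (fun w => cum (g w)) := by
  refine measurable_pi_lambda _ fun n => ?_
  unfold cum
  exact Finset.measurable_sum _ fun i _ => (measurable_pi_apply i).comp hg

theorem s_lt_te (k : Ix) : JJ.s k < te := JJ.s_lt_t
theorem m_lt_te (k : Ix) : JJ.m k < te := JJ.m_lt_t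

theorem dep_h (γ : Ix) : Dep (JJ.s (ixs γ)) (fun z : PJ => fun n => nxt (z (JJ.m γ)) n) := by
  intro y y' h
  have : y (JJ.m γ) = y' (JJ.m γ) := h _ (JJ.m_lt_s.2 (lt_ixs γ))
  simp only [this]

theorem measurable_h (γ : Ix) : Measurable (fun z : PJ => fun n => nxt (z (JJ.m γ)) n) :=
  measurable_pi_lambda _ fun n => (measurable_nxt n).comp (measurable_pi_apply (JJ.m γ))

/-- closure point for the Menger names -/
theorem closure_pt (hBnd : BndStmt) (hCount : CountStmt) (ι : Type)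
    (hι : Cardinal.mk ι ≤ Cardinal.continuum) (rel : ι → PP → (PJ → ℝ) → Prop) (e : PP)
    (hMen : ∀ i, JMenRel (rel i) e) (β0 : Ix) :
    ∃ γ : Ix, β0 < γ ∧ ∀ (i : ι) (r : PP) (c' : PJ → ℕ → ℕ), r ≤ e → r.1.Below (JJ.s γ) →
      Measurable c' → Dep (JJ.s γ) c' → JCov (rel i) r c' →
      ∃ d' ≤ r, ∃ H : PJ → ℕ → ℕ, Measurable H ∧ Dep (JJ.s γ) H ∧ d'.1.Below (JJ.s γ) ∧
        JCovH (rel i) d' c' H := by
  classical
  obtain ⟨-, b2, -, b4, b5, b6⟩ := hBnd
  -- the tasks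
  let Tk : Ix → Type := fun β => ι × {r : Cond JJ // r.Below (JJ.s β)} ×
    {f : PJ → ℕ → ℕ // Measurable f ∧ Dep (JJ.s β) f}
  have hTk : ∀ β, Cardinal.mk (Tk β) ≤ Cardinal.continuum := by
    intro β
    simp only [Tk, Cardinal.mk_prod, Cardinal.lift_id]
    obtain ⟨h1, h2, -⟩ := hCount β
    calc _ ≤ Cardinal.continuum * (Cardinal.continuum * Cardinal.continuum) :=
          mul_le_mul' hι (mul_le_mul' h1 h2)
      _ = Cardinal.continuum := by
          rw [Cardinal.continuum_mul_self, Cardinal.continuum_mul_self]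
  have hsol : ∀ β (t : Tk β), ∃ k : Ix, ∀ (hv : VB te t.2.1.1), (⟨t.2.1.1, hv⟩ : PP) ≤ e →
      JCov (rel t.1) ⟨t.2.1.1, hv⟩ t.2.2.1 → ∃ d' ≤ (⟨t.2.1.1, hv⟩ : PP),
      ∃ H : PJ → ℕ → ℕ, Measurable H ∧ Dep (JJ.s k) H ∧ d'.1.Below (JJ.s k) ∧
        JCovH (rel t.1) d' t.2.2.1 H := by
    intro β t
    by_cases hv : VB te t.2.1.1 ∧ ∃ hv : VB te t.2.1.1, (⟨t.2.1.1, hv⟩ : PP) ≤ e ∧
        JCov (rel t.1) ⟨t.2.1.1, hv⟩ t.2.2.1
    · obtain ⟨-, hv, hle, hcov⟩ := hv
      have hN : Nm t.2.2.1 := ⟨t.2.2.2.1, t.2.2.2.2.mono (s_lt_te β).le⟩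
      obtain ⟨d', hd', H, hH, hJ⟩ := hMen t.1 _ hle _ hN hcov
      obtain ⟨k1, hk1⟩ := b2 d'.1 d'.2.below
      obtain ⟨k2, hk2⟩ := b4 H hH
      refine ⟨max k1 k2, fun _ _ _ => ⟨d', hd', H, hH.1, hk2.mono ?_, hk1.mono ?_, hJ⟩⟩
      · rw [← not_lt, JJ.s_lt_s, not_lt]; exact le_max_right _ _
      · rw [← not_lt, JJ.s_lt_s, not_lt]; exact le_max_left _ _
    · exact ⟨β0, fun hv' h1 h2 => absurd ⟨hv', hv', h1, h2⟩ hv⟩
  choose kk hkk using hsol
  have hg : ∀ β, ∃ b : Ix, ∀ t : Tk β, kk β t < b := fun β => b5 (Tk β) (hTk β) (kk β)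
  choose g hg using hg
  obtain ⟨γ, hγ0, hγg, hγB, hγD⟩ := b6 g β0
  refine ⟨γ, hγ0, fun i r c' hre hrB hcm hcd hcov => ?_⟩
  obtain ⟨β1, hβ1, hrB1⟩ := hγB r.1 hrB
  obtain ⟨β2, hβ2, hcd2⟩ := hγD c' hcm hcd
  set β3 := max β1 β2 with hβ3
  have hβ3γ : β3 < γ := max_lt hβ1 hβ2
  have hsβ : ∀ {a b : Ix}, a ≤ b → JJ.s a ≤ JJ.s b := fun h => by
    rw [← not_lt, JJ.s_lt_s, not_lt]; exact h
  let t : Tk β3 := (i, ⟨r.1, hrB1.mono (hsβ (le_max_left _ _))⟩,
    ⟨c', hcm, hcd2.mono (hsβ (le_max_right _ _))⟩)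
  obtain ⟨d', hd', H, hH1, hH2, hH3, hH4⟩ := hkk β3 t r.2 hre hcov
  have hk : kk β3 t ≤ γ := (lt_trans (hg β3 t) (hγg β3 hβ3γ)).le
  exact ⟨d', hd', H, hH1, hH2.mono (hsβ hk), hH3.mono (hsβ hk), hH4⟩

/-- the second cover is a cover for the names -/
theorem cov2 (hConst : JConstStmt) (hEr : ErStmt) (rel : PP → (PJ → ℝ) → Prop)
    (hmono : ∀ r r' f, r' ≤ r → rel r f → rel r' f) {e r1 : PP} (hre : r1 ≤ e)
    {c φm : PJ → ℕ → ℕ} (hc : Nm c) (hcov : JCov rel e c) (N0 a0 : ℕ) :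
    JCov rel r1 (cc c φm N0 a0) := by
  classical
  intro d' hd' f' hf' hrel n hall
  obtain ⟨-, hC2, -⟩ := hConst
  obtain ⟨-, -, -, -, -, hbase⟩ := hEr
  obtain ⟨q, hq, hdis⟩ := hC2 d' (fun m => {z | ∀ k, f' z ∉ iv (c z (Nat.pair m k))})
    (fun m => ms_avoid hf' hc m)
    (fun m q hq hsub => hcov q (hq.trans (hd'.trans hre)) f' hf' (hmono _ _ _ hq hrel) m
      (fun z hz => hsub hz))
  obtain ⟨z, hz⟩ := q.1.body_nonempty
  have h1 : ∀ m, ∃ k, f' z ∈ iv (c z (Nat.pair m k)) := by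
    intro m
    by_contra hcon
    push Not at hcon
    exact (Set.disjoint_left.1 (hdis m)) hz hcon
  choose kf hkf using h1
  set b := (Finset.range (n + N0 + 1)).sup kf with hb
  set b' := (Finset.range (φm z b + 1)).sup kf with hb'
  set O : Set ℝ := (⋂ m ∈ Finset.range (n + N0 + 1), iv (c z (Nat.pair m (kf m)))) ∩
    ⋂ m ∈ Finset.range (φm z b + 1), iv (c z (Nat.pair m (kf m))) with hO
  have hOo : IsOpen O :=
    (isOpen_biInter_finset fun m _ => isOpen_Ioo).inter (isOpen_biInter_finset fun m _ => isOpen_Ioo)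
  have hzO : f' z ∈ O := by
    constructor
    · simp only [Set.mem_iInter]
      exact fun m _ => hkf m
    · simp only [Set.mem_iInter]
      exact fun m _ => hkf m
  obtain ⟨a, ha1, ha2⟩ := hbase O hOo _ hzO
  have hQ : Qc (c z) (φm z) (n + N0) a b b' := by
    constructor
    · intro m hm t ht
      have h2 := (ha2 ht).1
      simp only [Set.mem_iInter] at h2
      simp only [Set.mem_iUnion, Set.mem_Iic, exists_prop]
      exact ⟨kf m, Finset.le_sup (f := kf) (Finset.mem_range.2 (by omega)),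
        h2 m (Finset.mem_range.2 (by omega))⟩
    · intro m hm t ht
      have h2 := (ha2 ht).2
      simp only [Set.mem_iInter] at h2
      simp only [Set.mem_iUnion, Set.mem_Iic, exists_prop]
      exact ⟨kf m, Finset.le_sup (f := kf) (Finset.mem_range.2 (by omega)),
        h2 m (Finset.mem_range.2 (by omega))⟩
  have h3 := hall z (hq hz) (Nat.pair a (Nat.pair b b'))
  rw [cc_pair _ _ _ _ _ _ _ _ _ hQ] at h3
  exact h3 ha1

/-- the final combinatorial contradiction -/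
theorem contra {x : R} (hx : Inf1 x) {b b' n N0 : ℕ} {φm : ℕ → ℕ} {G : ℕ → ℕ}
    (h1 : ∀ m ≤ n + N0, nxt x m < b) (h2 : ∀ m ≤ φm b, nxt x m < b')
    (h3 : ∀ u : ℕ → ℕ, Monotone u → (∀ n, nxt x n ≤ u n) → G (n + N0) < u (φm (u (n + N0)))) :
    G (n + N0) < max b b' := by
  set u : ℕ → ℕ := fun m => if m ≤ n + N0 then b else if m ≤ φm b then max b b'
    else max (max b b') (nxt x m) with hu
  have hmono : Monotone u := by
    intro m m' hm
    simp only [hu]
    by_cases g1 : m ≤ n + N0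
    · rw [if_pos g1]
      by_cases g2 : m' ≤ n + N0
      · rw [if_pos g2]
      · rw [if_neg g2]
        split_ifs
        · exact le_max_left _ _
        · exact (le_max_left _ _).trans (le_max_left _ _)
    · have g2 : ¬ m' ≤ n + N0 := by omega
      rw [if_neg g1, if_neg g2]
      by_cases g3 : m ≤ φm b
      · rw [if_pos g3]
        split_ifs
        · exact le_rfl
        · exact le_max_left _ _
      · have g4 : ¬ m' ≤ φm b := by omega
        rw [if_neg g3, if_neg g4]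
        exact max_le_max le_rfl (nxt_mono hx hm)
  have hle : ∀ m, nxt x m ≤ u m := by
    intro m
    simp only [hu]
    by_cases g1 : m ≤ n + N0
    · rw [if_pos g1]
      exact (h1 m g1).le
    · rw [if_neg g1]
      by_cases g3 : m ≤ φm b
      · rw [if_pos g3]
        exact (h2 m g3).le.trans (le_max_right _ _)
      · rw [if_neg g3]
        exact le_max_right _ _
  have h4 := h3 u hmono hle
  have h5 : u (n + N0) = b := by simp [hu]
  rw [h5] at h4
  have h6 : u (φm b) ≤ max b b' := by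
    simp only [hu]
    split_ifs with g1 g2
    · exact le_max_left _ _
    · exact le_rfl
    · exact absurd le_rfl g2
  exact lt_of_lt_of_le h4 h6

theorem jadd (hBnd : BndStmt) (hCount : CountStmt) (hConst : JConstStmt) (hSbd : SbdStmt)
    (hMloc : MlocStmt) (hEr : ErStmt) : JAddStmt := by
  classical
  intro ι hι rel hmono e hMen c hc hcov
  obtain ⟨k1, hk1⟩ := hBnd.2.1 e.1 e.2.below
  obtain ⟨k2, hk2⟩ := hBnd.2.2.2.1 c hc
  obtain ⟨γ, hγ0, hγ⟩ := closure_pt hBnd hCount ι hι rel e hMen (max k1 k2)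
  have hsβ : ∀ {a b : Ix}, a ≤ b → JJ.s a ≤ JJ.s b := fun h => by
    rw [← not_lt, JJ.s_lt_s, not_lt]; exact h
  have heB : e.1.Below (JJ.s γ) := hk1.mono (hsβ ((le_max_left _ _).trans hγ0.le))
  have hcD : Dep (JJ.s γ) c := hk2.mono (hsβ ((le_max_right _ _).trans hγ0.le))
  refine ⟨fun z n => nxt (z (JJ.m γ)) n, ⟨measurable_h γ, (dep_h γ).mono (s_lt_te _).le⟩, ?_⟩
  intro i d1 hd1 f hf hrel hcon
  obtain ⟨φ, n0, th, hφm, hn0m, hthm, hM⟩ := hMloc
  obtain ⟨w, a0⟩ := hEr.2.2.2.2.1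
  have hty : ty (JJ.m γ) = true := rfl
  have hTm : Measurable (d1.1.T (JJ.m γ)) := d1.1.meas _
  have hTd : Dep (JJ.m γ) (d1.1.T (JJ.m γ)) := d1.1.dep _
  have hTg : ∀ y, Good true (d1.1.T (JJ.m γ) y) := fun y => by
    have h := d1.1.good (JJ.m γ) y
    rwa [hty] at h
  -- step 1
  obtain ⟨q0, hq0, hq0v, hq0T, hq0S, N0, hN0⟩ := hConst.2.2 te (JJ.m γ) (m_lt_te γ).le d1.1 d1.2 ℕ
    (fun y => n0 (d1.1.T (JJ.m γ) y))
    ⟨fun x => measurableSet_eq_fun (hn0m.comp hTm) measurable_const, Set.to_countable _⟩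
    (fun y y' h => by simp only [hTd y y' h])
  -- step 2
  obtain ⟨q1, hq1, hq1v, hq1T, φs, hφs, hφd, hφle⟩ := hSbd te (JJ.s γ) rfl (s_lt_te γ) q0 hq0v
    (fun y => φ (d1.1.T (JJ.m γ) y)) (hφm.comp hTm) (fun y y' h => by
      have : d1.1.T (JJ.m γ) y = d1.1.T (JJ.m γ) y' := hTd y y' h
      simp only [this])
  set φm : PJ → ℕ → ℕ := fun y => cum (φs y) with hφmdef
  have hφmm : Measurable φm := measurable_cum hφs
  have hφmd : Dep (JJ.s γ) φm := fun y y' h => by simp only [hφmdef, hφd y y' h]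
  -- step 3
  set r1 : PP := ⟨q1.restr (JJ.s γ), (hq1v.restr (JJ.s γ)).mono (s_lt_te γ).le⟩ with hr1
  have hq1e : q1 ≤ e.1 := (hq1.trans hq0).trans hd1
  have hr1e : r1 ≤ e := by
    show q1.restr (JJ.s γ) ≤ e.1
    have := Cond.restr_mono hq1e (JJ.s γ)
    rwa [heB.restr_eq] at this
  have hr1B : r1.1.Below (JJ.s γ) := Cond.restr_below _ _
  have hccD : Dep (JJ.s γ) (cc c φm N0 w) := by
    intro y y' h
    unfold cc
    rw [hcD y y' h, hφmd y y' h]
  -- step 5
  obtain ⟨d', hd', H, hHm, hHd, hd'B, hJH⟩ := hγ i r1 (cc c φm N0 w) hr1e hr1B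
    (measurable_cc hc.1 hφmm N0 w) hccD (cov2 hConst hEr (rel i) (hmono i) hr1e hc (hcov i) N0 w)
  -- step 6
  have hglue : d'.1.restr (JJ.s γ) ≤ q1.restr (JJ.s γ) := by
    rw [hd'B.restr_eq]; exact hd'
  set q2 := Cond.glue d'.1 q1 (JJ.s γ) with hq2
  have hq2v : VB te q2 := VB.glue d'.2 hq1v (s_lt_te γ).le hglue
  have hq2q1 : q2 ≤ q1 := Cond.glue_le_right hglue
  have hq2d : q2 ≤ d'.1 := Cond.glue_le_left hd'B
  have hq2T : q2.T (JJ.m γ) = d1.1.T (JJ.m γ) := by
    have h1 : JJ.s γ ≤ JJ.m γ := (JJ.s_lt_m.2 le_rfl).le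
    have h2 : q1.T (JJ.m γ) = q0.T (JJ.m γ) := hq1T (JJ.m γ) le_rfl
    rw [hq2, Cond.glue_T_ge _ _ h1, h2, hq0T _ le_rfl]
  -- step 7
  set T' : PJ → Set Node := fun y => th (d1.1.T (JJ.m γ) y) (cum (H y)) with hT'
  have hT'm : Measurable T' := hthm.comp (hTm.prodMk (measurable_cum hHm))
  have hT'd : Dep (JJ.m γ) T' := by
    intro y y' h
    have h1 : H y = H y' := hHd y y' fun i hi => h i (hi.trans (JJ.s_lt_m.2 le_rfl))
    simp only [hT', hTd y y' h, h1]
  have hT'g : ∀ y, Good (ty (JJ.m γ)) (T' y) ∧ T' y ⊆ q2.T (JJ.m γ) y := by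
    intro y
    rw [hq2T, hty]
    exact (hM _ (hTg y) _ (cum_mono (H y))).1
  set q3 := q2.setT (JJ.m γ) T' hT'm hT'd with hq3
  have hq3v : VB te q3 := VB.setT hq2v (m_lt_te γ) T' hT'm hT'd (fun y _ => hT'g y)
    (fun h => by rw [hty] at h; exact absurd h (by simp))
  have hq3q2 : q3 ≤ q2 := Cond.setT_le q2 T' hT'm hT'd (fun y _ => hT'g y)
  set p3 : PP := ⟨q3, hq3v⟩ with hp3
  have hp3d1 : p3 ≤ d1 := ((hq3q2.trans hq2q1).trans hq1).trans hq0
  have hp3d' : p3 ≤ d' := hq3q2.trans hq2d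
  -- step 8
  have h8 := hJH p3 hp3d' f hf (hmono i _ _ _ hp3d1 hrel)
  push Not at h8
  obtain ⟨z, hz, n, j, hj, hzj⟩ := h8
  have hzd1 : z ∈ d1.1.body := hp3d1 hz
  have hzq1 : z ∈ q1.body := (hq3q2.trans hq2q1) hz
  have hzq0 : z ∈ q0.body := hq1 hzq1
  have hzx := hz (JJ.m γ) (by rw [show p3.1.S = insert (JJ.m γ) q2.S from rfl]; exact Set.mem_insert _ _)
  rw [show p3.1.T (JJ.m γ) z = T' z from Cond.setT_T_self q2 T' hT'm hT'd (hT'g z).1, hty] at hzx
  have hinf : Inf1 (z (JJ.m γ)) := hzx.2 rfl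
  unfold cc at hzj
  split_ifs at hzj with hQ
  · simp only [Nat.unpair_pair] at hQ hzj
    set a := j.unpair.1 with ha
    set b := j.unpair.2.unpair.1 with hb
    set b' := j.unpair.2.unpair.2 with hb'
    have hbj : b ≤ j := (Nat.unpair_left_le _).trans (Nat.unpair_right_le _)
    have hb'j : b' ≤ j := (Nat.unpair_right_le _).trans (Nat.unpair_right_le _)
    have g1 : ∀ m ≤ n + N0, nxt (z (JJ.m γ)) m < b := by
      intro m hm
      have h9 := hQ.1 m hm hzj
      simp only [Set.mem_iUnion, Set.mem_Iic, exists_prop] at h9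
      obtain ⟨k, hk, hfk⟩ := h9
      by_contra hcn
      exact hcon z hzd1 m k (hk.trans (not_lt.1 hcn)) hfk
    have g2 : ∀ m ≤ φm z b, nxt (z (JJ.m γ)) m < b' := by
      intro m hm
      have h9 := hQ.2 m hm hzj
      simp only [Set.mem_iUnion, Set.mem_Iic, exists_prop] at h9
      obtain ⟨k, hk, hfk⟩ := h9
      by_contra hcn
      exact hcon z hzd1 m k (hk.trans (not_lt.1 hcn)) hfk
    have g3 : ∀ u : ℕ → ℕ, Monotone u → (∀ n, nxt (z (JJ.m γ)) n ≤ u n) →
        cum (H z) (n + N0) < u (φm z (u (n + N0))) := by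
      intro u hu1 hu2
      refine (hM _ (hTg z) _ (cum_mono (H z))).2 (φm z) (cum_mono _) ?_ _ hzx u hu1 hu2 _ ?_
      · intro e'
        exact (hφle z hzq1 e').trans (le_cum _ _)
      · rw [hN0 z hzq0]
        exact Nat.le_add_left _ _
    have g4 := contra hinf g1 g2 g3
    have g5 : max b b' ≤ j := max_le hbj hb'j
    have g6 : H z n ≤ cum (H z) (n + N0) := (le_cum _ _).trans (cum_mono _ (Nat.le_add_right _ _))
    omega
  · rw [a0] at hzj
    exact hzj

end Pool.Agent.MG.H69
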